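import Pool.Agent.U26.SG.Stm2

set_option autoImplicit false

/-! Project SG, package TAY: the expansion of the plane waves. -/

namespace Pool.Agent.U402.SG

open Filter Topology Complex
open Pool.Agent.U26.SG

lemma PS_eq (N : ℕ) (s w : ℂ) (hs : s ≠ 0) :
    PS N (fun k => s ^ k) w = (∑ a ∈ Finset.range N, (w / 2 * s) ^ a / (a.factorial : ℂ)) *
      ∑ b ∈ Finset.range N, (-(starRingEnd ℂ w / 2 * s⁻¹)) ^ b / (b.factorial : ℂ) := by
  unfold PS
  rw [Finset.sum_mul_sum, Finset.sum_product]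
  refine Finset.sum_congr rfl fun a _ => Finset.sum_congr rfl fun b _ => ?_
  simp only [tm]
  rw [zpow_sub₀ hs, zpow_natCast, zpow_natCast, mul_pow, neg_pow (starRingEnd ℂ w / 2 * s⁻¹),
    mul_pow, inv_pow]
  push_cast
  have h1 : (a.factorial : ℂ) ≠ 0 := by exact_mod_cast a.factorial_ne_zero
  have h2 : (b.factorial : ℂ) ≠ 0 := by exact_mod_cast b.factorial_ne_zero
  field_simp

lemma exp_near (N : ℕ) (r : ℝ) (A B : ℂ) (hA : ‖A‖ = r) (hB : ‖B‖ = r)
    (hN : r / (N.succ : ℝ) ≤ 1 / 2) :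
    ‖exp (A + B) - (∑ a ∈ Finset.range N, A ^ a / (a.factorial : ℂ)) *
      ∑ b ∈ Finset.range N, B ^ b / (b.factorial : ℂ)‖ ≤
      (r ^ N / (N.factorial : ℝ) * 2) * (2 * Real.exp r) := by
  have hr : 0 ≤ r := hA ▸ norm_nonneg A
  have h1 : ‖exp A - ∑ a ∈ Finset.range N, A ^ a / (a.factorial : ℂ)‖ ≤
      r ^ N / (N.factorial : ℝ) * 2 := by
    have := Complex.exp_bound' (x := A) (n := N) (by rw [hA]; exact hN)
    rwa [hA] at this
  have h2 : ‖exp B - ∑ a ∈ Finset.range N, B ^ a / (a.factorial : ℂ)‖ ≤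
      r ^ N / (N.factorial : ℝ) * 2 := by
    have := Complex.exp_bound' (x := B) (n := N) (by rw [hB]; exact hN)
    rwa [hB] at this
  have h3 : ‖exp B‖ ≤ Real.exp r := by
    rw [← hB]; exact Complex.norm_exp_le_exp_norm B
  have h4 : ‖∑ a ∈ Finset.range N, A ^ a / (a.factorial : ℂ)‖ ≤ Real.exp r := by
    refine (norm_sum_le _ _).trans ?_
    refine le_trans (le_of_eq ?_) (Real.sum_le_exp_of_nonneg hr N)
    refine Finset.sum_congr rfl fun a _ => ?_
    rw [norm_div, norm_pow, hA, Complex.norm_natCast]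
  have e : exp (A + B) - (∑ a ∈ Finset.range N, A ^ a / (a.factorial : ℂ)) *
      ∑ b ∈ Finset.range N, B ^ b / (b.factorial : ℂ) =
      (exp A - ∑ a ∈ Finset.range N, A ^ a / (a.factorial : ℂ)) * exp B +
      (∑ a ∈ Finset.range N, A ^ a / (a.factorial : ℂ)) *
        (exp B - ∑ b ∈ Finset.range N, B ^ b / (b.factorial : ℂ)) := by
    rw [exp_add]; ring
  rw [e]
  have h0 : 0 ≤ r ^ N / (N.factorial : ℝ) * 2 := by positivity
  calc _ ≤ ‖exp A - ∑ a ∈ Finset.range N, A ^ a / (a.factorial : ℂ)‖ * ‖exp B‖ +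
        ‖∑ a ∈ Finset.range N, A ^ a / (a.factorial : ℂ)‖ *
          ‖exp B - ∑ b ∈ Finset.range N, B ^ b / (b.factorial : ℂ)‖ := by
        refine (norm_add_le _ _).trans ?_
        rw [norm_mul, norm_mul]
    _ ≤ (r ^ N / (N.factorial : ℝ) * 2) * Real.exp r +
        Real.exp r * (r ^ N / (N.factorial : ℝ) * 2) :=
        add_le_add (mul_le_mul h1 h3 (norm_nonneg _) h0)
          (mul_le_mul h4 h2 (norm_nonneg _) (Real.exp_pos r).le)
    _ = _ := by ring

theorem t_TAY : S_TAY := by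
  intro w ε hε
  set r : ℝ := ‖w‖ / 2 with hr
  have hr0 : 0 ≤ r := by positivity
  have h1 : Tendsto (fun N : ℕ => (r ^ N / (N.factorial : ℝ) * 2) * (2 * Real.exp r)) atTop
      (𝓝 0) := by
    have := ((FloorSemiring.tendsto_pow_div_factorial_atTop r).mul_const 2).mul_const
      (2 * Real.exp r)
    simpa using this
  have h2 : ∀ᶠ N : ℕ in atTop, (r ^ N / (N.factorial : ℝ) * 2) * (2 * Real.exp r) ≤ ε :=
    h1.eventually (Iic_mem_nhds hε)
  have h3 : ∀ᶠ N : ℕ in atTop, r / (N.succ : ℝ) ≤ 1 / 2 := by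
    filter_upwards [eventually_ge_atTop ⌈2 * r⌉₊] with N hN
    have h4 : 2 * r ≤ N := (Nat.le_ceil _).trans (by exact_mod_cast hN)
    rw [div_le_iff₀ (by positivity)]
    push_cast
    linarith
  filter_upwards [h2, h3] with N hN2 hN3 α
  have hse : I * exp (-(α : ℂ) * I) = (Real.sin α : ℂ) + (Real.cos α : ℂ) * I := by
    rw [exp_mul_I, Complex.cos_neg, Complex.sin_neg, ofReal_sin, ofReal_cos]
    linear_combination (-Complex.sin α) * I_sq
  have hs0 : I * exp (-(α : ℂ) * I) ≠ 0 := mul_ne_zero I_ne_zero (exp_ne_zero _)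
  have hsc : ((Real.sin α : ℂ) + (Real.cos α : ℂ) * I) * ((Real.sin α : ℂ) - (Real.cos α : ℂ) * I)
      = 1 := by
    have h5 : (Real.sin α : ℂ) ^ 2 + (Real.cos α : ℂ) ^ 2 = 1 := by
      exact_mod_cast Real.sin_sq_add_cos_sq α
    linear_combination h5 - (Real.cos α : ℂ) ^ 2 * I_sq
  have hsi : (I * exp (-(α : ℂ) * I))⁻¹ = (Real.sin α : ℂ) - (Real.cos α : ℂ) * I := by
    rw [hse]
    exact inv_eq_of_mul_eq_one_right hsc
  have hsn : ‖I * exp (-(α : ℂ) * I)‖ = 1 := by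
    rw [norm_mul, norm_I, one_mul, show -(α : ℂ) * I = ((-α : ℝ) : ℂ) * I by push_cast; ring,
      norm_exp_ofReal_mul_I]
  rw [PS_eq N _ w hs0]
  have hA : ‖w / 2 * (I * exp (-(α : ℂ) * I))‖ = r := by
    rw [norm_mul, hsn, mul_one, norm_div, hr]
    simp
  have hB : ‖-(starRingEnd ℂ w / 2 * (I * exp (-(α : ℂ) * I))⁻¹)‖ = r := by
    rw [norm_neg, norm_mul, norm_inv, hsn, inv_one, mul_one, norm_div, hr, norm_conj]
    simp
  have hw : w = (w.re : ℂ) + w.im * I := (re_add_im w).symm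
  have hcw : starRingEnd ℂ w = (w.re : ℂ) - w.im * I := by
    apply Complex.ext <;> simp
  have hAB : ((w.re * Real.cos α + w.im * Real.sin α : ℝ) : ℂ) * I =
      w / 2 * (I * exp (-(α : ℂ) * I)) +
        -(starRingEnd ℂ w / 2 * (I * exp (-(α : ℂ) * I))⁻¹) := by
    rw [hsi, hse, hcw]
    push_cast
    linear_combination (-((Complex.sin α : ℂ) + (Complex.cos α : ℂ) * I) / 2) * hw
  rw [hAB]
  exact (exp_near N r _ _ hA hB hN3).trans hN2

end Pool.Agent.U402.SG
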